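import Mathlib
import Pool.Agent.Q10.EndDist

/-!
# Right distributive centrally essential endomorphism rings of abelian groups are commutative
-/

namespace Pool.Agent.Results.MP_10193a_al.EndCommutative

/-- `R` is centrally essential: for every nonzero `a` there are nonzero central `x`, `y` with
`a x = y`. -/
def CentrallyEssential (R : Type*) [Ring R] : Prop :=
  ∀ a : R, a ≠ 0 → ∃ x ∈ Subring.center R, ∃ y ∈ Subring.center R, x ≠ 0 ∧ y ≠ 0 ∧ a * x = y

/-- `R` is right distributive: the lattice of right ideals of `R` (submodules of `R` as a module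
over the opposite ring) is distributive. -/
def RightDistributive (R : Type*) [Ring R] : Prop :=
  ∀ F G H : Submodule Rᵐᵒᵖ R, F ⊓ (G ⊔ H) = (F ⊓ G) ⊔ (F ⊓ H)

/-- `R` is left distributive: the lattice of left ideals of `R` is distributive. -/
def LeftDistributive (R : Type*) [Ring R] : Prop :=
  ∀ F G H : Submodule R R, F ⊓ (G ⊔ H) = (F ⊓ G) ⊔ (F ⊓ H)

section Ring

variable {R : Type*} [Ring R]

theorem right_crit (h : RightDistributive R) (f g : R) :
    ∃ r s t : R, f * r = g * s ∧ g * (1 - r) = f * t := by
  have h1 := h (Submodule.span Rᵐᵒᵖ {f + g}) (Submodule.span Rᵐᵒᵖ {f}) (Submodule.span Rᵐᵒᵖ {g})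
  have hmem : f + g ∈ Submodule.span Rᵐᵒᵖ {f + g} ⊓
      (Submodule.span Rᵐᵒᵖ {f} ⊔ Submodule.span Rᵐᵒᵖ {g}) := by
    refine ⟨Submodule.mem_span_singleton_self _, ?_⟩
    exact Submodule.add_mem_sup (Submodule.mem_span_singleton_self _)
      (Submodule.mem_span_singleton_self _)
  rw [h1, Submodule.mem_sup] at hmem
  obtain ⟨x, ⟨hx1, hx2⟩, y, ⟨hy1, hy2⟩, hxy⟩ := hmem
  obtain ⟨u, hu⟩ := Submodule.mem_span_singleton.mp hx1
  obtain ⟨u', hu'⟩ := Submodule.mem_span_singleton.mp hx2
  obtain ⟨v, hv⟩ := Submodule.mem_span_singleton.mp hy1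
  obtain ⟨v', hv'⟩ := Submodule.mem_span_singleton.mp hy2
  have eu : (f + g) * u.unop = x := hu
  have eu' : f * u'.unop = x := hu'
  have ev : (f + g) * v.unop = y := hv
  have ev' : g * v'.unop = y := hv'
  refine ⟨v.unop, v'.unop - v.unop, u'.unop - 1 + v.unop, ?_, ?_⟩
  · rw [mul_sub, ev', ← ev]
    noncomm_ring
  · have e1 : g = x + y - f := by rw [hxy]; abel
    have e2 : g * v.unop = y - f * v.unop := by rw [← ev]; noncomm_ring
    rw [mul_sub, mul_one, e2, mul_add, mul_sub, mul_one, eu']
    nth_rewrite 1 [e1]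
    abel

theorem left_crit (h : LeftDistributive R) (f g : R) :
    ∃ r s t : R, r * f = s * g ∧ (1 - r) * g = t * f := by
  have h1 := h (Submodule.span R {f + g}) (Submodule.span R {f}) (Submodule.span R {g})
  have hmem : f + g ∈ Submodule.span R {f + g} ⊓
      (Submodule.span R {f} ⊔ Submodule.span R {g}) := by
    refine ⟨Submodule.mem_span_singleton_self _, ?_⟩
    exact Submodule.add_mem_sup (Submodule.mem_span_singleton_self _)
      (Submodule.mem_span_singleton_self _)
  rw [h1, Submodule.mem_sup] at hmem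
  obtain ⟨x, ⟨hx1, hx2⟩, y, ⟨hy1, hy2⟩, hxy⟩ := hmem
  obtain ⟨u, hu⟩ := Submodule.mem_span_singleton.mp hx1
  obtain ⟨u', hu'⟩ := Submodule.mem_span_singleton.mp hx2
  obtain ⟨v, hv⟩ := Submodule.mem_span_singleton.mp hy1
  obtain ⟨v', hv'⟩ := Submodule.mem_span_singleton.mp hy2
  have eu : u * (f + g) = x := hu
  have eu' : u' * f = x := hu'
  have ev : v * (f + g) = y := hv
  have ev' : v' * g = y := hv'
  refine ⟨v, v' - v, u' - 1 + v, ?_, ?_⟩
  · rw [sub_mul, ev', ← ev]
    noncomm_ring
  · have e1 : g = x + y - f := by rw [hxy]; abel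
    have e2 : v * g = y - v * f := by rw [← ev]; noncomm_ring
    rw [sub_mul, one_mul, e2, add_mul, sub_mul, one_mul, eu']
    nth_rewrite 1 [e1]
    abel

/-- If all corners `e R (1 - e)` vanish then idempotents are central. -/
theorem central_of_corner (h : ∀ e : R, e * e = e → ∀ x, e * x * (1 - e) = 0) (e : R)
    (he : e * e = e) (x : R) : e * x = x * e := by
  have h1 := h e he x
  have he' : (1 - e) * (1 - e) = 1 - e := by
    rw [mul_sub, mul_one, sub_mul, one_mul, he, sub_self, sub_zero]
  have h2 := h (1 - e) he' x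
  rw [sub_sub_cancel] at h2
  have e1 : e * x = e * x * e := by
    rw [mul_sub, mul_one, sub_eq_zero] at h1
    exact h1
  have e2 : x * e = e * x * e := by
    rw [sub_mul, one_mul, sub_mul, sub_eq_zero] at h2
    exact h2
  rw [e1, e2]

theorem corner_right (h : RightDistributive R) (e : R) (he : e * e = e) (x : R) :
    e * x * (1 - e) = 0 := by
  obtain ⟨f, hf⟩ : ∃ f, f = 1 - e := ⟨_, rfl⟩
  have hef : e * f = 0 := by rw [hf, mul_sub, mul_one, he, sub_self]
  have hff : f * f = f := by rw [hf, mul_sub, mul_one, sub_mul, one_mul, he, sub_self, sub_zero]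
  rw [← hf]
  obtain ⟨r, s, t, h1, h2⟩ := right_crit h f (f + e * x * f)
  have h3 : e * x * f * s = 0 := by
    have h4 := congrArg (fun y => e * y) h1
    calc e * x * f * s = e * ((f + e * x * f) * s) := by
          rw [add_mul, mul_add, ← mul_assoc e f s, hef, zero_mul, zero_add, ← mul_assoc e,
            ← mul_assoc e, ← mul_assoc e, he]
      _ = e * (f * r) := h4.symm
      _ = 0 := by rw [← mul_assoc, hef, zero_mul]
  have h5 : f * r = f * s := by
    have hfe : f * e = 0 := by rw [hf, sub_mul, one_mul, he, sub_self]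
    have h4 := congrArg (fun y => f * y) h1
    calc f * r = f * (f * r) := by rw [← mul_assoc, hff]
      _ = f * ((f + e * x * f) * s) := h4
      _ = f * s := by
          rw [add_mul, mul_add, ← mul_assoc f f s, hff, ← mul_assoc f, ← mul_assoc f,
            ← mul_assoc f, hfe]
          simp
  have h6 : e * x * f * (1 - r) = 0 := by
    have h4 := congrArg (fun y => e * y) h2
    calc e * x * f * (1 - r) = e * ((f + e * x * f) * (1 - r)) := by
          rw [add_mul, mul_add, ← mul_assoc e f (1 - r), hef, zero_mul, zero_add, ← mul_assoc e,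
            ← mul_assoc e, ← mul_assoc e, he]
      _ = e * (f * t) := h4
      _ = 0 := by rw [← mul_assoc, hef, zero_mul]
  rw [mul_sub, mul_one, sub_eq_zero] at h6
  rw [h6, mul_assoc, h5, ← mul_assoc, h3]

theorem corner_left (h : LeftDistributive R) (e : R) (he : e * e = e) (x : R) :
    e * x * (1 - e) = 0 := by
  obtain ⟨f, hf⟩ : ∃ f, f = 1 - e := ⟨_, rfl⟩
  have hef : e * f = 0 := by rw [hf, mul_sub, mul_one, he, sub_self]
  have hfe : f * e = 0 := by rw [hf, sub_mul, one_mul, he, sub_self]
  have hff : f * f = f := by rw [hf, mul_sub, mul_one, sub_mul, one_mul, he, sub_self, sub_zero]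
  rw [← hf]
  obtain ⟨r, s, t, h1, h2⟩ := left_crit h e (e + e * x * f)
  have h3 : s * (e * x * f) = 0 := by
    have h4 := congrArg (fun y => y * f) h1
    calc s * (e * x * f) = s * (e + e * x * f) * f := by
          rw [mul_add, add_mul, mul_assoc s e f, hef, mul_zero, zero_add, mul_assoc s,
            mul_assoc (e * x) f f, hff]
      _ = r * e * f := h4.symm
      _ = 0 := by rw [mul_assoc, hef, mul_zero]
  have h5 : r * e = s * e := by
    have h4 := congrArg (fun y => y * e) h1
    calc r * e = r * e * e := by rw [mul_assoc, he]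
      _ = s * (e + e * x * f) * e := h4
      _ = s * e := by
          rw [mul_add, add_mul, mul_assoc s e e, he, mul_assoc s, mul_assoc (e * x) f e, hfe,
            mul_zero, mul_zero, add_zero]
  have h6 : (1 - r) * (e * x * f) = 0 := by
    have h4 := congrArg (fun y => y * f) h2
    calc (1 - r) * (e * x * f) = (1 - r) * (e + e * x * f) * f := by
          rw [mul_add, add_mul, mul_assoc (1 - r) e f, hef, mul_zero, zero_add,
            mul_assoc (1 - r), mul_assoc (e * x) f f, hff]
      _ = t * e * f := h4
      _ = 0 := by rw [mul_assoc, hef, mul_zero]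
  rw [sub_mul, one_mul, sub_eq_zero] at h6
  rw [h6, mul_assoc e x f, ← mul_assoc r e, h5, mul_assoc s e, ← mul_assoc e x f, h3]

/-- In a noncommutative centrally essential ring there is a nonzero central commutator of square
zero. -/
theorem exists_n (hCE : CentrallyEssential R) (a b : R) (hab : a * b ≠ b * a) :
    ∃ n : R, n ≠ 0 ∧ (∀ x, n * x = x * n) ∧ n * n = 0 ∧ ∃ a b : R, n = a * b - b * a := by
  have hc : a * b - b * a ≠ 0 := sub_ne_zero.mpr hab
  obtain ⟨x, hx, y, hy, hx0, hy0, hxy⟩ := hCE _ hc
  have hxc : ∀ r, x * r = r * x := fun r => (Subring.mem_center_iff.mp hx r).symm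
  have hyc : ∀ r, y * r = r * y := fun r => (Subring.mem_center_iff.mp hy r).symm
  -- `y = [a, b x]`
  have hy' : y = a * (b * x) - (b * x) * a := by
    rw [← hxy, sub_mul, mul_assoc, mul_assoc, mul_assoc, hxc a]
  obtain ⟨c, hc'⟩ : ∃ c, c = b * x := ⟨_, rfl⟩
  rw [← hc'] at hy'
  by_cases hay : a * y = 0
  · refine ⟨y, hy0, hyc, ?_, a, c, hy'⟩
    have : y * y = a * y * c - c * (a * y) := by
      nth_rewrite 1 [hy']
      rw [sub_mul, mul_assoc a c y, ← hyc c, ← mul_assoc a y c, mul_assoc c a y]
    rw [this, hay, zero_mul, mul_zero, sub_zero]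
  · obtain ⟨z, hz, w, hw, hz0, hw0, hzw⟩ := hCE _ hay
    have hzc : ∀ r, z * r = r * z := fun r => (Subring.mem_center_iff.mp hz r).symm
    have hwc : ∀ r, w * r = r * w := fun r => (Subring.mem_center_iff.mp hw r).symm
    have h1 : y * y * z = 0 := by
      have h2 : w * c - c * w = 0 := by rw [hwc, sub_self]
      calc y * y * z = (a * c - c * a) * y * z := by rw [← hy']
        _ = a * (c * (y * z)) - c * (a * y * z) := by noncomm_ring
        _ = a * ((y * z) * c) - c * (a * y * z) := by
            rw [← mul_assoc c y z, ← hyc c, mul_assoc y c z, ← hzc c, ← mul_assoc y z c]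
        _ = (a * y * z) * c - c * (a * y * z) := by noncomm_ring
        _ = 0 := by rw [hzw, h2]
    refine ⟨y * z, ?_, ?_, ?_, a, c * z, ?_⟩
    · intro h
      apply hw0
      rw [← hzw, mul_assoc, h, mul_zero]
    · intro r
      rw [mul_assoc, hzc, ← mul_assoc, hyc, mul_assoc]
    · calc y * z * (y * z) = y * (z * y) * z := by noncomm_ring
        _ = y * (y * z) * z := by rw [hzc]
        _ = y * y * z * z := by noncomm_ring
        _ = 0 := by rw [h1, zero_mul]
    · calc y * z = (a * c - c * a) * z := by rw [← hy']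
        _ = a * (c * z) - c * (a * z) := by noncomm_ring
        _ = a * (c * z) - c * (z * a) := by rw [hzc]
        _ = a * (c * z) - c * z * a := by noncomm_ring

end Ring

/-- If the endomorphism ring of an abelian group `A` is right distributive (or left distributive)
and centrally essential, then it is commutative. -/
theorem result : ∀ (A : Type*) [AddCommGroup A],
    RightDistributive (AddMonoid.End A) ∨ LeftDistributive (AddMonoid.End A) →
    CentrallyEssential (AddMonoid.End A) → ∀ f g : AddMonoid.End A, f * g = g * f := by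
  intro A _ hD hCE f g
  by_contra hfg
  obtain ⟨n, hn0, hnc, hnn, hcomm⟩ := exists_n hCE f g hfg
  have hyp : Q10.EndDist.Hyp n :=
    { idem := by
        rcases hD with h | h
        · exact central_of_corner (corner_right h)
        · exact central_of_corner (corner_left h)
      central := hnc
      sq := hnn
      comm := hcomm
      dist := by
        intro m _
        have hmc : ∀ x : AddMonoid.End A, (m : AddMonoid.End A) * x = x * m := fun x =>
          (Nat.cast_commute m x)
        rcases hD with h | h
        · exact right_crit h _ _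
        · obtain ⟨r, s, t, h1, h2⟩ := left_crit h (m : AddMonoid.End A) n
          exact ⟨r, s, t, by rw [hmc, h1, hnc], by rw [hnc, h2, hmc]⟩ }
  exact hn0 (DFunLike.ext _ _ fun x => Q10.EndDist.eq_zero hyp x)

end Pool.Agent.Results.MP_10193a_al.EndCommutative
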